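import Pool.Agent.H995.PMI.Main

/-!
# MP_239067_co: the constant `ε` of Q1 is at most `1/2`

Q1 asks for `ε > 0` such that every cubic graph with circular flow number `< 4 + ε` has four perfect
matchings covering all edges. We give a simple cubic graph with 56 vertices which has a nowhere-zero
`9/2`-flow but no four perfect matchings covering its edges. So `Works ε` fails for all `ε > 1/2`.

The graph. In one of the two Blanuša snarks there is an edge `xy` that never lies in two of four perfect
matchings covering all edges (checked by a search, `search_tri`). Delete this edge from three copies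
of the snark and join the three vertices `x` to a new vertex `a`, the three vertices `y` to a new
vertex `b`. If four perfect matchings cover all edges, two of them contain the same edge at `a`; this
gives a cover of one copy in which `xy` lies in two of the matchings, a contradiction.
-/

set_option autoImplicit false

namespace Pool.Agent.Results.MP_239067_co.FourAndAHalf

/-- The statement of Q1 for a given `ε`: every finite loopless cubic multigraph (with edges `Fin m`,
vertices `Fin n`, ends `s e`, `t e`) which has a nowhere-zero `r`-flow for some `r < 4 + ε` has four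
perfect matchings covering all its edges. Q1 is `∃ ε > 0, Works ε`. -/
def Works (ε : ℝ) : Prop :=
  ∀ (n m : ℕ) (s t : Fin m → Fin n),
    (∀ e, s e ≠ t e) →
    (∀ v : Fin n,
      (Finset.univ.filter (fun e => s e = v)).card
        + (Finset.univ.filter (fun e => t e = v)).card = 3) →
    (∃ r : ℝ, r < 4 + ε ∧
      ∃ f : Fin m → ℝ,
        (∀ e, 1 ≤ |f e| ∧ |f e| ≤ r - 1) ∧
        ∀ v : Fin n,
          ∑ e ∈ Finset.univ.filter (fun e => s e = v), f e
            = ∑ e ∈ Finset.univ.filter (fun e => t e = v), f e) →
    ∃ M : Fin 4 → Finset (Fin m),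
      (∀ (i : Fin 4) (v : Fin n),
        ((M i).filter (fun e => s e = v ∨ t e = v)).card = 1) ∧
      ∀ e : Fin m, ∃ i : Fin 4, e ∈ M i

theorem result :
    -- a simple cubic graph with 56 vertices, a nowhere-zero 9/2-flow, no cover by four matchings
    (∃ s t : Fin 84 → Fin 56,
      (∀ e, s e ≠ t e) ∧
      (∀ e f, (s e = s f ∧ t e = t f) ∨ (s e = t f ∧ t e = s f) → e = f) ∧
      (∀ v : Fin 56,
        (Finset.univ.filter (fun e => s e = v)).card
          + (Finset.univ.filter (fun e => t e = v)).card = 3) ∧
      (∃ f : Fin 84 → ℝ, (∀ e, 1 ≤ |f e| ∧ |f e| ≤ 9 / 2 - 1) ∧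
        ∀ v : Fin 56,
          ∑ e ∈ Finset.univ.filter (fun e => s e = v), f e
            = ∑ e ∈ Finset.univ.filter (fun e => t e = v), f e) ∧
      ¬ ∃ M : Fin 4 → Finset (Fin 84),
        (∀ (i : Fin 4) (v : Fin 56),
          ((M i).filter (fun e => s e = v ∨ t e = v)).card = 1) ∧
        ∀ e : Fin 84, ∃ i : Fin 4, e ∈ M i) ∧
    -- so the constant of Q1 cannot be larger than 1/2
    ∀ ε : ℝ, 1 / 2 < ε → ¬ Works ε := by
  refine ⟨⟨H995.PMI.s, H995.PMI.t, H995.PMI.loopless, H995.PMI.simple, H995.PMI.cubic,
    H995.PMI.flow, ?_⟩, ?_⟩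
  · rintro ⟨M, h1, h2⟩
    exact H995.PMI.no_cover M ⟨h1, h2⟩
  · intro ε hε h
    obtain ⟨f, hf, hflow⟩ := H995.PMI.flow
    obtain ⟨M, h1, h2⟩ := h 56 84 H995.PMI.s H995.PMI.t H995.PMI.loopless H995.PMI.cubic
      ⟨9 / 2, by linarith, f, hf, hflow⟩
    exact H995.PMI.no_cover M ⟨h1, h2⟩

end Pool.Agent.Results.MP_239067_co.FourAndAHalf
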